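import Mathlib
import Pool.Agent.H947R3.GM.Cls

/-! Translates of the differences of an infinite set: limits along an ultrafilter. -/

set_option autoImplicit false

namespace Pool.Agent.K9h13.TR

open Finset Filter
open Pool.Agent.H947R3.GM (AdmN)

/-- some cross difference of four classes of shifts is in `G` -/
def Hit (N K : ℕ) (G : Set ℕ) : Prop := ∀ H : Fin 4 → Fin K → ℕ, AdmN N H →
  ∃ g g' i i', g ≠ g' ∧ H g i < H g' i' ∧ H g' i' - H g i ∈ G

/-- `y - x + k` is in `G` -/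
def cc (G : Set ℕ) (k : ℤ) (x y : ℕ) : Prop := ((y : ℤ) - x + k).toNat ∈ G

/-- the limit of `cc` for large `y` -/
def cl (U : Ultrafilter ℕ) (G : Set ℕ) (k : ℤ) (x : ℕ) : Prop := ∀ᶠ y in (U : Filter ℕ), cc G k x y

/-- the limit of `cl` for large `x` -/
def PP (U : Ultrafilter ℕ) (G : Set ℕ) : Set ℤ := {k | ∀ᶠ x in (U : Filter ℕ), cl U G k x}

lemma cl_iff (U : Ultrafilter ℕ) (G : Set ℕ) (k : ℤ) (x : ℕ) :
    ∀ᶠ y in (U : Filter ℕ), (cc G k x y ↔ cl U G k x) := by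
  by_cases h : cl U G k x
  · have h1 : ∀ᶠ y in (U : Filter ℕ), cc G k x y := h
    exact h1.mono fun y hy => ⟨fun _ => h, fun _ => hy⟩
  · have h1 : ∀ᶠ y in (U : Filter ℕ), ¬ cc G k x y := by
      have h2 : ¬ ∀ᶠ y in (U : Filter ℕ), cc G k x y := h
      exact Ultrafilter.eventually_not.2 h2
    exact h1.mono fun y hy => ⟨fun h' => absurd h' hy, fun h' => absurd h' h⟩

lemma PP_iff (U : Ultrafilter ℕ) (G : Set ℕ) (k : ℤ) :
    ∀ᶠ x in (U : Filter ℕ), (cl U G k x ↔ k ∈ PP U G) := by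
  by_cases h : k ∈ PP U G
  · have h1 : ∀ᶠ x in (U : Filter ℕ), cl U G k x := h
    exact h1.mono fun y hy => ⟨fun _ => h, fun _ => hy⟩
  · have h1 : ∀ᶠ x in (U : Filter ℕ), ¬ cl U G k x := by
      have h2 : ¬ ∀ᶠ x in (U : Filter ℕ), cl U G k x := h
      exact Ultrafilter.eventually_not.2 h2
    exact h1.mono fun y hy => ⟨fun h' => absurd h' hy, fun h' => absurd h' h⟩

/-- an ultrafilter on an infinite set -/
lemma exists_ultra (T : Set ℕ) (hT : T.Infinite) : ∃ U : Ultrafilter ℕ,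
    (∀ᶠ x in (U : Filter ℕ), x ∈ T) ∧ ∀ B : ℕ, ∀ᶠ x in (U : Filter ℕ), B < x := by
  have hne : (cofinite ⊓ 𝓟 T : Filter ℕ).NeBot := cofinite_inf_principal_neBot_iff.2 hT
  refine ⟨Ultrafilter.of (cofinite ⊓ 𝓟 T), ?_, ?_⟩
  · have h1 : ∀ᶠ x in (cofinite ⊓ 𝓟 T : Filter ℕ), x ∈ T :=
      (eventually_principal.2 fun x hx => hx).filter_mono inf_le_right
    exact h1.filter_mono (Ultrafilter.of_le _)
  · intro B
    have h1 : ∀ᶠ x in (cofinite : Filter ℕ), B < x := by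
      rw [Nat.cofinite_eq_atTop]
      exact eventually_gt_atTop B
    exact (h1.filter_mono inf_le_left).filter_mono (Ultrafilter.of_le _)

/-- the homogeneous sequence -/
lemma exists_seq' (U : Ultrafilter ℕ) (hU : ∀ B : ℕ, ∀ᶠ x in (U : Filter ℕ), B < x) (T : Set ℕ)
    (hT : ∀ᶠ x in (U : Filter ℕ), x ∈ T) (G : Set ℕ) :
    ∃ a : ℕ → ℕ, StrictMono a ∧ (∀ n, a n ∈ T) ∧
      ∀ k : ℤ, ∀ i j : ℕ, k.natAbs ≤ i → i < j → (cc G k (a i) (a j) ↔ k ∈ PP U G) := by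
  classical
  obtain ⟨f, hf1, hf2⟩ := exists_seq_of_forall_finset_exists (α := ℕ × ℕ)
    (fun z => z.2 ∈ T ∧ ∀ k ∈ Icc (-(z.1 : ℤ)) z.1, (cl U G k z.2 ↔ k ∈ PP U G))
    (fun z z' => z.1 < z'.1 ∧ z.2 < z'.2 ∧ ∀ k ∈ Icc (-(z.1 : ℤ)) z.1, (cc G k z.2 z'.2 ↔ cl U G k z.2))
    (by
      intro s hs
      obtain ⟨n, hn⟩ : ∃ n : ℕ, ∀ z ∈ s, z.1 < n := by
        refine ⟨s.sup (fun z => z.1) + 1, fun z hz => ?_⟩
        have := Finset.le_sup (f := fun z : ℕ × ℕ => z.1) hz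
        omega
      have h1 : ∀ᶠ y in (U : Filter ℕ), ∀ k ∈ Icc (-(n : ℤ)) n, (cl U G k y ↔ k ∈ PP U G) :=
        (eventually_all_finset _).2 fun k _ => PP_iff U G k
      have h2 : ∀ᶠ y in (U : Filter ℕ), ∀ z ∈ s, z.2 < y ∧
          ∀ k ∈ Icc (-(z.1 : ℤ)) z.1, (cc G k z.2 y ↔ cl U G k z.2) :=
        (eventually_all_finset _).2 fun z _ => (hU z.2).and
          ((eventually_all_finset _).2 fun k _ => cl_iff U G k z.2)
      obtain ⟨y, hy1, hy2, hy3⟩ := (hT.and (h1.and h2)).exists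
      exact ⟨(n, y), ⟨hy1, hy2⟩, fun z hz => ⟨hn z hz, (hy3 z hz).1, (hy3 z hz).2⟩⟩)
  have hidx : ∀ n, n ≤ (f n).1 := by
    intro n
    induction n with
    | zero => exact Nat.zero_le _
    | succ n ih =>
      have := (hf2 n (n + 1) (Nat.lt_succ_self n)).1
      omega
  refine ⟨fun n => (f n).2, fun i j hij => (hf2 i j hij).2.1, fun n => (hf1 n).1, ?_⟩
  intro k i j hki hij
  have hk : k ∈ Icc (-((f i).1 : ℤ)) (f i).1 := by
    have := hidx i
    rw [mem_Icc]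
    omega
  exact ((hf2 i j hij).2.2 k hk).trans ((hf1 i).2 k hk)

/-- admissibility from the small primes -/
theorem adm_of {N K : ℕ} (H : Fin 4 → Fin K → ℕ)
    (hinj : Function.Injective (fun x : Fin 4 × Fin K => H x.1 x.2))
    (hloc : ∀ p : ℕ, p.Prime → ¬ p ∣ N → p ≤ 4 * K → ∃ n : ℤ, ∀ g i, ¬ ((p : ℤ) ∣ n + H g i)) :
    AdmN N H := by
  classical
  refine ⟨hinj, fun p hp hpN => ?_⟩
  by_cases hpn : p ≤ 4 * K
  · exact hloc p hp hpN hpn
  · have := Fact.mk hp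
    let f : Fin 4 × Fin K → ZMod p := fun x => - ((H x.1 x.2 : ℤ) : ZMod p)
    have hcard : (univ.image f).card < (univ : Finset (ZMod p)).card := by
      rw [card_univ, ZMod.card]
      have h2 : (univ.image f).card ≤ 4 * K := by
        refine card_image_le.trans ?_
        rw [card_univ, Fintype.card_prod, Fintype.card_fin, Fintype.card_fin]
      omega
    obtain ⟨w, -, hw⟩ := Finset.exists_mem_notMem_of_card_lt_card hcard
    refine ⟨(w.val : ℤ), fun g i hd => hw (mem_image.2 ⟨(g, i), mem_univ _, ?_⟩)⟩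
    rw [← ZMod.intCast_zmod_eq_zero_iff_dvd] at hd
    push_cast at hd
    rw [ZMod.natCast_zmod_val] at hd
    show - ((H g i : ℤ) : ZMod p) = w
    push_cast
    linear_combination -hd

/-- **the differences of four integers** -/
theorem four_points (U : Ultrafilter ℕ) (hU : ∀ B : ℕ, ∀ᶠ x in (U : Filter ℕ), B < x) (N K : ℕ)
    (G : Set ℕ) (hG : Hit N K G) (m : Fin 4 → ℤ)
    (hm : ∀ p : ℕ, p.Prime → ¬ p ∣ N → ∃ n : ℤ, ∀ g, ¬ ((p : ℤ) ∣ n + m g)) :
    ∃ g g' : Fin 4, g < g' ∧ m g' - m g ∈ PP U G := by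
  classical
  -- a residue class
  obtain ⟨Q, hQ⟩ : ∃ Q : ℕ, Q = (4 * K).factorial := ⟨_, rfl⟩
  have hQ0 : 0 < Q := by rw [hQ]; exact Nat.factorial_pos _
  obtain ⟨ρ, hρ⟩ : ∃ ρ : ℕ, ∀ᶠ x in (U : Filter ℕ), x % Q = ρ := by
    have h1 : ∀ᶠ x in (U : Filter ℕ), ∃ ρ ∈ range Q, x % Q = ρ :=
      Eventually.of_forall fun x => ⟨x % Q, mem_range.2 (Nat.mod_lt _ hQ0), rfl⟩
    by_contra hcon
    push Not at hcon
    have h2 : ∀ᶠ x in (U : Filter ℕ), ∀ ρ ∈ range Q, ¬ x % Q = ρ :=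
      (eventually_all_finset _).2 fun ρ _ => hcon ρ
    obtain ⟨x, ⟨ρ, h3, h4⟩, h5⟩ := (h1.and h2).exists
    exact h5 ρ h3 h4
  obtain ⟨B, hB⟩ : ∃ B : ℕ, ∀ g, (m g).natAbs ≤ B := by
    refine ⟨univ.sup (fun g => (m g).natAbs), fun g => ?_⟩
    exact Finset.le_sup (f := fun g : Fin 4 => (m g).natAbs) (mem_univ g)
  obtain ⟨D, hD⟩ : ∃ D : Finset ℤ, D = (univ : Finset (Fin 4 × Fin 4)).image (fun z => m z.2 - m z.1) := ⟨_, rfl⟩
  obtain ⟨e, he1, he2⟩ := exists_seq_of_forall_finset_exists (α := ℕ)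
    (fun x => x % Q = ρ ∧ ∀ k ∈ D, (cl U G k x ↔ k ∈ PP U G))
    (fun x y => x + 2 * B < y ∧ ∀ k ∈ D, (cc G k x y ↔ cl U G k x))
    (by
      intro s _
      have h1 : ∀ᶠ y in (U : Filter ℕ), ∀ k ∈ D, (cl U G k y ↔ k ∈ PP U G) :=
        (eventually_all_finset _).2 fun k _ => PP_iff U G k
      have h2 : ∀ᶠ y in (U : Filter ℕ), ∀ x ∈ s, x + 2 * B < y ∧ ∀ k ∈ D, (cc G k x y ↔ cl U G k x) :=
        (eventually_all_finset _).2 fun x _ => (hU (x + 2 * B)).and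
          ((eventually_all_finset _).2 fun k _ => cl_iff U G k x)
      obtain ⟨y, hy1, hy2, hy3⟩ := (hρ.and (h1.and h2)).exists
      exact ⟨y, ⟨hy1, hy2⟩, hy3⟩)
  -- the classes
  obtain ⟨ix, hix⟩ : ∃ ix : Fin 4 → Fin K → ℕ, ∀ g i, ix g i = g * K + i := ⟨fun g i => g * K + i, fun _ _ => rfl⟩
  have hixlt : ∀ g g' i i', g < g' → ix g i < ix g' i' := by
    intro g g' i i' h
    rw [hix, hix]
    have h1 : (g : ℕ) + 1 ≤ g' := h
    have h2 : ((g : ℕ) + 1) * K ≤ g' * K := Nat.mul_le_mul_right K h1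
    have h3 := i.2
    have h4 : ((g : ℕ) + 1) * K = g * K + K := by ring
    omega
  obtain ⟨H, hH⟩ : ∃ H : Fin 4 → Fin K → ℕ, ∀ g i, H g i = ((e (ix g i) : ℤ) + m g + B).toNat :=
    ⟨fun g i => ((e (ix g i) : ℤ) + m g + B).toNat, fun _ _ => rfl⟩
  have hHz : ∀ g i, (H g i : ℤ) = (e (ix g i) : ℤ) + m g + B := by
    intro g i
    have := hB g
    rw [hH, Int.toNat_of_nonneg (by omega)]
  have hlt : ∀ g i g' i', ix g i < ix g' i' → H g i < H g' i' := by
    intro g i g' i' h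
    have h1 := (he2 _ _ h).1
    have h2 := hHz g i
    have h3 := hHz g' i'
    have := hB g
    have := hB g'
    omega
  have hinj : Function.Injective (fun x : Fin 4 × Fin K => H x.1 x.2) := by
    rintro ⟨g, i⟩ ⟨g', i'⟩ h
    have h0 : H g i = H g' i' := h
    have h1 : ix g i = ix g' i' := by
      rcases lt_trichotomy (ix g i) (ix g' i') with h2 | h2 | h2
      · have := hlt _ _ _ _ h2
        omega
      · exact h2
      · have := hlt _ _ _ _ h2
        omega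
    have hgg : g = g' := by
      rcases lt_trichotomy g g' with h2 | h2 | h2
      · have := hixlt g g' i i' h2
        omega
      · exact h2
      · have := hixlt g' g i' i h2
        omega
    rw [hix, hix, hgg] at h1
    have hii : i = i' := by
      apply Fin.ext
      omega
    rw [hgg, hii]
  have hadm : AdmN N H := by
    apply adm_of H hinj
    intro p hp hpN hpK
    obtain ⟨n, hn⟩ := hm p hp hpN
    refine ⟨n - ρ - B, fun g i hd => hn g ?_⟩
    have hpQ : p ∣ Q := by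
      rw [hQ]
      exact (Nat.Prime.dvd_factorial hp).2 hpK
    have h1 : (p : ℤ) ∣ (e (ix g i) : ℤ) - ρ := by
      have h2 := (he1 (ix g i)).1
      have h3 : (Q : ℤ) ∣ (e (ix g i) : ℤ) - ρ := by
        rw [← h2]
        push_cast
        exact (Int.mod_modEq (e (ix g i) : ℤ) (Q : ℤ)).dvd
      exact (Int.natCast_dvd_natCast.2 hpQ).trans h3
    rw [hHz] at hd
    have h4 := dvd_sub hd h1
    have h5 : n - ρ - B + ((e (ix g i) : ℤ) + m g + B) - ((e (ix g i) : ℤ) - ρ) = n + m g := by ring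
    rwa [h5] at h4
  obtain ⟨g, g', i, i', hne, hl, hmem⟩ := hG H hadm
  have hgg : g < g' := by
    rcases lt_trichotomy g g' with h2 | h2 | h2
    · exact h2
    · exact absurd h2 hne
    · have := hlt _ _ _ _ (hixlt g' g i' i h2)
      omega
  refine ⟨g, g', hgg, ?_⟩
  have hk : m g' - m g ∈ D := by
    rw [hD, mem_image]
    exact ⟨(g, g'), mem_univ _, rfl⟩
  have hij := hixlt g g' i i' hgg
  rw [← (he1 (ix g i)).2 _ hk, ← (he2 _ _ hij).2 _ hk]
  unfold cc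
  have h1 : ((e (ix g' i') : ℤ) - e (ix g i) + (m g' - m g)).toNat = H g' i' - H g i := by
    have h2 := hHz g i
    have h3 := hHz g' i'
    omega
  rw [h1]
  exact hmem

/-- four values in increasing order -/
lemma sorted (H : Fin 4 → Fin 1 → ℕ) (hinj : Function.Injective (fun x : Fin 4 × Fin 1 => H x.1 x.2)) :
    ∃ (m : Fin 4 → ℕ) (τ : Fin 4 → Fin 4), StrictMono m ∧ ∀ g, H (τ g) 0 = m g := by
  classical
  obtain ⟨s, hs⟩ : ∃ s : Finset ℕ, s = univ.image (fun g : Fin 4 => H g 0) := ⟨_, rfl⟩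
  have hc : s.card = 4 := by
    rw [hs, card_image_of_injective]
    · simp
    · intro g g' h
      have h1 : (fun x : Fin 4 × Fin 1 => H x.1 x.2) (g, 0) = (fun x : Fin 4 × Fin 1 => H x.1 x.2) (g', 0) := h
      exact congrArg Prod.fst (hinj h1)
  have hs' : ∀ x ∈ s, ∃ g' : Fin 4, H g' 0 = x := by
    intro x hx
    rw [hs, mem_image] at hx
    obtain ⟨g', -, h⟩ := hx
    exact ⟨g', h⟩
  have hmem : ∀ g : Fin 4, ∃ g' : Fin 4, H g' 0 = s.orderEmbOfFin hc g :=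
    fun g => hs' _ (s.orderEmbOfFin_mem hc g)
  choose τ hτ using hmem
  exact ⟨fun g => s.orderEmbOfFin hc g, τ, (s.orderEmbOfFin hc).strictMono, hτ⟩

/-- the positive elements of the limit set again satisfy the hypothesis -/
theorem hit_pos (U : Ultrafilter ℕ) (hU : ∀ B : ℕ, ∀ᶠ x in (U : Filter ℕ), B < x) (N K : ℕ)
    (G : Set ℕ) (hG : Hit N K G) : Hit N 1 {k : ℕ | (k : ℤ) ∈ PP U G} := by
  intro H hH
  obtain ⟨m, τ, hm, hτ⟩ := sorted H hH.1
  obtain ⟨g, g', hgg, h⟩ := four_points U hU N K G hG (fun g => (m g : ℤ)) (by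
    intro p hp hpN
    obtain ⟨n, hn⟩ := hH.2 p hp hpN
    refine ⟨n, fun g => ?_⟩
    have h1 := hn (τ g) 0
    rw [hτ g] at h1
    exact h1)
  have hlt := hm hgg
  refine ⟨τ g, τ g', 0, 0, ?_, ?_, ?_⟩
  · intro h1
    rw [← hτ, ← hτ, h1] at hlt
    exact lt_irrefl _ hlt
  · rw [hτ, hτ]
    exact hlt
  · rw [hτ, hτ, Set.mem_ofPred_eq, Nat.cast_sub hlt.le]
    exact h

/-- the negative elements of the limit set again satisfy the hypothesis -/
theorem hit_neg (U : Ultrafilter ℕ) (hU : ∀ B : ℕ, ∀ᶠ x in (U : Filter ℕ), B < x) (N K : ℕ)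
    (G : Set ℕ) (hG : Hit N K G) : Hit N 1 {k : ℕ | -(k : ℤ) ∈ PP U G} := by
  intro H hH
  obtain ⟨m, τ, hm, hτ⟩ := sorted H hH.1
  obtain ⟨g, g', hgg, h⟩ := four_points U hU N K G hG (fun g => (m g.rev : ℤ)) (by
    intro p hp hpN
    obtain ⟨n, hn⟩ := hH.2 p hp hpN
    refine ⟨n, fun g => ?_⟩
    have h1 := hn (τ g.rev) 0
    rw [hτ] at h1
    exact h1)
  have hlt := hm (Fin.rev_lt_rev.2 hgg)
  refine ⟨τ g'.rev, τ g.rev, 0, 0, ?_, ?_, ?_⟩
  · intro h1
    rw [← hτ, ← hτ, h1] at hlt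
    exact lt_irrefl _ hlt
  · rw [hτ, hτ]
    exact hlt
  · rw [hτ, hτ, Set.mem_ofPred_eq, Nat.cast_sub hlt.le, neg_sub]
    exact h

/-- `0` is in the limit set -/
theorem zero_mem (U : Ultrafilter ℕ) (hU : ∀ B : ℕ, ∀ᶠ x in (U : Filter ℕ), B < x) (N K : ℕ)
    (G : Set ℕ) (hG : Hit N K G) : (0 : ℤ) ∈ PP U G := by
  obtain ⟨g, g', -, h⟩ := four_points U hU N K G hG (fun _ => 0) (by
    intro p hp hpN
    refine ⟨1, fun g h => ?_⟩
    rw [add_zero] at h
    have h1 := Int.le_of_dvd one_pos h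
    have h2 := hp.two_le
    omega)
  rwa [sub_zero] at h

/-- **four integers, with the condition at three only** -/
theorem four_three (U : Ultrafilter ℕ) (hU : ∀ B : ℕ, ∀ᶠ x in (U : Filter ℕ), B < x) (N K : ℕ) (h2 : 2 ∣ N)
    (G : Set ℕ) (hG : Hit N K G) (m : Fin 4 → ℤ) (hm : 3 ∣ N ∨ ∃ c : ℤ, ∀ g, ¬ (3 : ℤ) ∣ m g - c) :
    ∃ g g' : Fin 4, g < g' ∧ m g' - m g ∈ PP U G := by
  classical
  apply four_points U hU N K G hG m
  intro p hp hpN
  have hp2 : p ≠ 2 := fun h => hpN (h ▸ h2)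
  by_cases hp3 : p = 3
  · rcases hm with h | ⟨c, hc⟩
    · exact absurd (hp3 ▸ h) hpN
    · refine ⟨-c, fun g h => hc g ?_⟩
      rw [hp3] at h
      have h1 : -c + m g = m g - c := by ring
      rw [h1] at h
      exact_mod_cast h
  · have hp5 : 5 ≤ p := by
      have h1 := hp.two_le
      have h4 : p ≠ 4 := by
        rintro rfl
        norm_num at hp
      omega
    have := Fact.mk hp
    let f : Fin 4 → ZMod p := fun g => -((m g : ℤ) : ZMod p)
    have hcard : (univ.image f).card < (univ : Finset (ZMod p)).card := by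
      rw [card_univ, ZMod.card]
      have h2 : (univ.image f).card ≤ 4 := by
        refine card_image_le.trans ?_
        rw [card_univ, Fintype.card_fin]
      omega
    obtain ⟨w, -, hw⟩ := Finset.exists_mem_notMem_of_card_lt_card hcard
    refine ⟨(w.val : ℤ), fun g hd => hw (mem_image.2 ⟨g, mem_univ _, ?_⟩)⟩
    rw [← ZMod.intCast_zmod_eq_zero_iff_dvd] at hd
    push_cast at hd
    rw [ZMod.natCast_zmod_val] at hd
    show -((m g : ℤ) : ZMod p) = w
    linear_combination -hd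

end Pool.Agent.K9h13.TR
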